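import Pool.Agent.NNe.Chk
import Pool.Agent.NNe.Slots

set_option linter.all false
set_option maxRecDepth 1000000
namespace Pool.Agent.NNr.R11_4_9_11

open Pool.Agent.NNe

noncomputable def SI0_0 : Nat := (nat_lit 0xc0300c0300c0300c0300c0300c02008020080200401004010040000000)
noncomputable def SW0_0 : Nat := (nat_lit 0xb805802a014006001c00c00500200080020130058028006000009004402000f004803801a008)
noncomputable def RV0_0 : Nat := (nat_lit 0x20a00c30600620400818200b0880da08801330600a18201010000420a00e08801708804e20401718202108804a08803d08807330601918203010000f0880d420a01f08808f08809d)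
noncomputable def CO0_0 : Nat := (nat_lit 0x2a80502a80302a80202a80102a7440288840288830288810288800280c50280c40269c40265420265410249c40241c400aa0400aa0300aa0100aa0000a744002b05002b04002744)
noncomputable def Y0_0_1_0 : Nat := (nat_lit 0x7000000000000000000000000000000000000000000000000000300000000000030000000000007000000000000000000000000070000000000003)
noncomputable def Y0_0_2_3 : Nat := (nat_lit 0x5ef00000000000000000000000065000000000000000000000000ed00000000000e800000000005c0000000000000000000000005c00000000000000)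
noncomputable def C0_0 : Cd := (Cd.mk (nat_lit 24) (nat_lit 5) (nat_lit 1025) SI0_0 SW0_0 RV0_0 CO0_0 (Sl.cons (Sd.mk (nat_lit 0) (nat_lit 0) (nat_lit 0) (nat_lit 3) (Sb.cons (nat_lit 8) (nat_lit 0) (nat_lit 3) Sb.nil) (Bl.c Y0_0_1_0 (nat_lit 10) (nat_lit 1) Bl.nil)) (Sl.cons (Sd.mk (nat_lit 2) (nat_lit 0) (nat_lit 3) (nat_lit 5) (Sb.cons (nat_lit 8) (nat_lit 0) (nat_lit 5) Sb.nil) (Bl.r Y0_0_1_0 (nat_lit 0) Bl.nil)) (Sl.cons (Sd.mk (nat_lit 9) (nat_lit 8) (nat_lit 8) (nat_lit 5) (Sb.cons (nat_lit 0) (nat_lit 0) (nat_lit 2) (Sb.cons (nat_lit 8) (nat_lit 2) (nat_lit 3) Sb.nil)) (Bl.r Y0_0_2_3 (nat_lit 3) Bl.nil)) (Sl.cons (Sd.mk (nat_lit 10) (nat_lit 8) (nat_lit 13) (nat_lit 11) (Sb.cons (nat_lit 0) (nat_lit 0) (nat_lit 6) (Sb.cons (nat_lit 8) (nat_lit 6) (nat_lit 5) Sb.nil)) (Bl.c Y0_0_2_3 (nat_lit 10) (nat_lit 2) Bl.nil)) Sl.nil)))))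
noncomputable def SI0_1 : Nat := (nat_lit 0x140501405014050140501405014050100401004010040100400c0300c0300c0300c03008020080200802008020080200801004010040100401004010000000000000000000000000)
noncomputable def SW0_1 : Nat := (nat_lit 0x7203801b80b404a01d00e0048022010004802006c02c015809004601b007801c06a02a014808804201a0070018068033014008003201800b803400a00400180c8062030013807c02c00c005800805e02e013007802a0140098028002000)
noncomputable def RV0_1 : Nat := (nat_lit 0x20a00d20400918200c0880db0880e420a01108801b08801418201110000520a00f08801808804f20401818202208803918202308804108804b08803e08806a08805718202918202b10000a08805e08806608805a20a0240880950880a30880ae20a0002040001820000880b80880002040031820030880741820311000100880d50880de08807e18203710001408807a20a02008809008809e0880a8888027a0400c9820130880b2a04010982017)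
noncomputable def CO0_1 : Nat := (nat_lit 0x2a80502a80202a80102a7440297840290c50290c40288840288810288800280c50280c40269c40265420265410255840255810251c40249c40241c4016ac40166440166410156810156800152c4014ac40142c4012b05012b04012744011784011005011002011001010b8401004401004201004100aa0400aa0100aa0000a7440097840092c4008a81008a800082c4002b05002b04002744001784001104001102001101000b84000142000141)
noncomputable def Y0_1_1_0 : Nat := (nat_lit 0x3ff000000000001200000000001e4000000000000000000000001ed000000000000800000000003ff000000000000000000000003ff000000000000000000000003ff000000000000000000000001e0000000000000000000000001e8000000000000800000000003f80000000000000)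
noncomputable def Y0_1_2_3 : Nat := (nat_lit 0xc7000000000000000000000000ff000000000000800000000000ff000000000000800000000000e3000000000000000000000000c300000000000c300000000000c3000000000004000000000000c3000000000000000000000000ff000000000000800000000000ff000000000000800000000000c7000000000004000000000000cf0000000000008)
noncomputable def Y0_1_4_5 : Nat := (nat_lit 0xff000000000000000000000000b1000000000003100000000000b500000000000000000000000fff000000000040400000000001b500000000000000000000000fff00000000004000000000000fff00000000004000000000000fff0000000000400)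
noncomputable def C0_1 : Cd := (Cd.mk (nat_lit 58) (nat_lit 6) (nat_lit 546) SI0_1 SW0_1 RV0_1 CO0_1 (Sl.cons (Sd.mk (nat_lit 0) (nat_lit 0) (nat_lit 0) (nat_lit 10) (Sb.cons (nat_lit 0) (nat_lit 0) (nat_lit 3) (Sb.cons (nat_lit 4) (nat_lit 3) (nat_lit 4) (Sb.cons (nat_lit 8) (nat_lit 7) (nat_lit 3) Sb.nil))) (Bl.c Y0_1_1_0 (nat_lit 18) (nat_lit 1) Bl.nil)) (Sl.cons (Sd.mk (nat_lit 2) (nat_lit 0) (nat_lit 10) (nat_lit 9) (Sb.cons (nat_lit 0) (nat_lit 0) (nat_lit 3) (Sb.cons (nat_lit 4) (nat_lit 3) (nat_lit 2) (Sb.cons (nat_lit 8) (nat_lit 5) (nat_lit 4) Sb.nil))) (Bl.r Y0_1_1_0 (nat_lit 0) Bl.nil)) (Sl.cons (Sd.mk (nat_lit 4) (nat_lit 4) (nat_lit 19) (nat_lit 11) (Sb.cons (nat_lit 0) (nat_lit 0) (nat_lit 4) (Sb.cons (nat_lit 4) (nat_lit 4) (nat_lit 4) (Sb.cons (nat_lit 8) (nat_lit 8) (nat_lit 3) Sb.nil))) (Bl.r Y0_1_2_3 (nat_lit 3) Bl.nil)) (Sl.cons (Sd.mk (nat_lit 5) (nat_lit 4) (nat_lit 30) (nat_lit 8) (Sb.cons (nat_lit 0) (nat_lit 0) (nat_lit 2) (Sb.cons (nat_lit 4) (nat_lit 2) (nat_lit 3) (Sb.cons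 (nat_lit 8) (nat_lit 5) (nat_lit 3) Sb.nil))) (Bl.c Y0_1_2_3 (nat_lit 22) (nat_lit 2) Bl.nil)) (Sl.cons (Sd.mk (nat_lit 9) (nat_lit 8) (nat_lit 38) (nat_lit 8) (Sb.cons (nat_lit 0) (nat_lit 0) (nat_lit 2) (Sb.cons (nat_lit 4) (nat_lit 2) (nat_lit 3) (Sb.cons (nat_lit 8) (nat_lit 5) (nat_lit 3) Sb.nil))) (Bl.r Y0_1_4_5 (nat_lit 5) Bl.nil)) (Sl.cons (Sd.mk (nat_lit 10) (nat_lit 8) (nat_lit 46) (nat_lit 12) (Sb.cons (nat_lit 0) (nat_lit 0) (nat_lit 5) (Sb.cons (nat_lit 4) (nat_lit 5) (nat_lit 3) (Sb.cons (nat_lit 8) (nat_lit 8) (nat_lit 4) Sb.nil))) (Bl.c Y0_1_4_5 (nat_lit 16) (nat_lit 4) Bl.nil)) Sl.nil)))))))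
noncomputable def SI0_2 : Nat := (nat_lit 0x300c0300c0300802008020080200802004010040100400000000000000000)
noncomputable def SW0_2 : Nat := (nat_lit 0x1800b804c01600600b0048022010005001400800300a803c012008001005001c00d006001c002000)
noncomputable def RV0_2 : Nat := (nat_lit 0x18202c10000b08805f08806708805b0880af20a0012040011820010880b90880012040041820040880df08807f18203810001508807b0880a9888028a0400d9820140880b3a04011982018)
noncomputable def CO0_2 : Nat := (nat_lit 0x156810156800152c4014ac40142c4011784011005011002011001010b840100440100420100410097840092c4008a81008a800082c4001784001104001102001101000b84000142000141)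
noncomputable def Y0_2_1_0 : Nat := (nat_lit 0x6d0000000000020000000000006d000000000004d0000000000064000000000002000000000000640000000000000000000000006d000000000004d)
noncomputable def Y0_2_2_3 : Nat := (nat_lit 0x1f0000000000007000000000000000000000000000000000000000000000000000000000000000070000000000007000000000001f0000000000007000000000001f00000000000170000000000000000000000000000000000000070000000000007)
noncomputable def C0_2 : Cd := (Cd.mk (nat_lit 25) (nat_lit 7) (nat_lit 67) SI0_2 SW0_2 RV0_2 CO0_2 (Sl.cons (Sd.mk (nat_lit 0) (nat_lit 0) (nat_lit 0) (nat_lit 7) (Sb.cons (nat_lit 0) (nat_lit 0) (nat_lit 3) (Sb.cons (nat_lit 4) (nat_lit 3) (nat_lit 4) Sb.nil)) (Bl.c Y0_2_1_0 (nat_lit 10) (nat_lit 1) Bl.nil)) (Sl.cons (Sd.mk (nat_lit 2) (nat_lit 0) (nat_lit 7) (nat_lit 5) (Sb.cons (nat_lit 0) (nat_lit 0) (nat_lit 3) (Sb.cons (nat_lit 4) (nat_lit 3) (nat_lit 2) Sb.nil)) (Bl.r Y0_2_1_0 (nat_lit 0) Bl.nil)) (Sl.cons (Sd.mk (nat_lit 4) (nat_lit 4) (nat_lit 12) (nat_lit 8) (Sb.cons (nat_lit 0) (nat_lit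 0) (nat_lit 4) (Sb.cons (nat_lit 4) (nat_lit 4) (nat_lit 4) Sb.nil)) (Bl.r Y0_2_2_3 (nat_lit 3) Bl.nil)) (Sl.cons (Sd.mk (nat_lit 5) (nat_lit 4) (nat_lit 20) (nat_lit 5) (Sb.cons (nat_lit 0) (nat_lit 0) (nat_lit 2) (Sb.cons (nat_lit 4) (nat_lit 2) (nat_lit 3) Sb.nil)) (Bl.c Y0_2_2_3 (nat_lit 16) (nat_lit 2) Bl.nil)) Sl.nil)))))
noncomputable def SI0_3 : Nat := (nat_lit 0x50140501405010040100400c0300c030080200802004010040100401004000000000000)
noncomputable def SW0_3 : Nat := (nat_lit 0x13007802c014004009003801200300e005c01000200d805800e00100d006402a011006801800001800a0040018005)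
noncomputable def RV0_3 : Nat := (nat_lit 0x880e508801c08801510000608801908803a08804208804c08803f08806b08805808806808805c0880960880a40880ba0880020880751000110880d60880e008808010001608807c08809108809f0880aa8880290880b4)
noncomputable def CO0_3 : Nat := (nat_lit 0x297840290c40288840288800280c40255840251c40249c40241c4016ac4016644014ac40142c4012b04012744010b8401004400aa0400aa0000a7440097840092c4008a800082c4002b04002744001784001104000b84)
noncomputable def Y0_3_1_0 : Nat := (nat_lit 0x700000000000020000000000000000000000000000000000000070000000000000000000000001900000000000000000000000019000000000000000000000000000000000000000000000000001f0000000000002)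
noncomputable def Y0_3_2_3 : Nat := (nat_lit 0x3000000000000000000000000030000000000000000000000000f0000000000000000000000000f000000000000f)
noncomputable def Y0_3_4_5 : Nat := (nat_lit 0x5000000000000500000000000050000000000005000000000001d000000000000d000000000001d000000000000d)
noncomputable def C0_3 : Cd := (Cd.mk (nat_lit 29) (nat_lit 9) (nat_lit 279) SI0_3 SW0_3 RV0_3 CO0_3 (Sl.cons (Sd.mk (nat_lit 0) (nat_lit 0) (nat_lit 0) (nat_lit 5) (Sb.cons (nat_lit 0) (nat_lit 0) (nat_lit 1) (Sb.cons (nat_lit 4) (nat_lit 1) (nat_lit 2) (Sb.cons (nat_lit 8) (nat_lit 3) (nat_lit 2) Sb.nil))) (Bl.c Y0_3_1_0 (nat_lit 14) (nat_lit 1) Bl.nil)) (Sl.cons (Sd.mk (nat_lit 2) (nat_lit 0) (nat_lit 5) (nat_lit 7) (Sb.cons (nat_lit 0) (nat_lit 0) (nat_lit 2) (Sb.cons (nat_lit 4) (nat_lit 2) (nat_lit 2) (Sb.cons (nat_lit 8) (nat_lit 4) (nat_lit 3) Sb.nil))) (Bl.r Y0_3_1_0 (nat_lit 0) Bl.nil)) (Sl.cons (Sd.mk (nat_lit 4) (nat_lit 4) (nat_lit 12) (nat_lit 4) (Sb.cons (nat_lit 0) (nat_lit 0) (nat_lit 2) (Sb.cons (nat_lit 8)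 (nat_lit 2) (nat_lit 2) Sb.nil)) (Bl.r Y0_3_2_3 (nat_lit 3) Bl.nil)) (Sl.cons (Sd.mk (nat_lit 5) (nat_lit 4) (nat_lit 16) (nat_lit 4) (Sb.cons (nat_lit 0) (nat_lit 0) (nat_lit 2) (Sb.cons (nat_lit 8) (nat_lit 2) (nat_lit 2) Sb.nil)) (Bl.c Y0_3_2_3 (nat_lit 8) (nat_lit 2) Bl.nil)) (Sl.cons (Sd.mk (nat_lit 9) (nat_lit 8) (nat_lit 20) (nat_lit 4) (Sb.cons (nat_lit 0) (nat_lit 0) (nat_lit 2) (Sb.cons (nat_lit 4) (nat_lit 2) (nat_lit 2) Sb.nil)) (Bl.r Y0_3_4_5 (nat_lit 5) Bl.nil)) (Sl.cons (Sd.mk (nat_lit 10) (nat_lit 8) (nat_lit 24) (nat_lit 5) (Sb.cons (nat_lit 0) (nat_lit 0) (nat_lit 3) (Sb.cons (nat_lit 4) (nat_lit 3) (nat_lit 2) Sb.nil)) (Bl.c Y0_3_4_5 (nat_lit 8) (nat_lit 4) Bl.nil)) Sl.nil)))))))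
noncomputable def SI0_4 : Nat := (nat_lit 0x20080200802008020080200802008020080200802008020080200802008020080200802008020080200701c0701c0701c0701c0701c0701c06018060180601806018060180601806018060180601806018060180601806018060180601806018060180601806018060180601806018060180601806018060140501405014050140501405014050140501405014050140501405014050140501404010040100401004010040100401004010040100401004010040100401004010040100400c0300c0300c0300c0300c0300c0300c0300c0300c0300c0300c0300c0300c0300c0300c02008020080200802008020080200802008020080100401004010040100401004010040100401004010040100401004010000000000000000000000000000000000000000)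
noncomputable def SW0_4 : Nat := (nat_lit 0x45822811206d03801b00d606a03781b80d206803381980a005302781380a4051026813009604a01b00d4068026012809001e00e006822010e0650320124090033019008c04400c005820c10408604082000fe07e04282100fa07c03d81e80c006302f81780c406102e81700b605a022011c086042020811808a04001f80f807a03101800bc03c02100e807003602000f806803201800b802801200807583a81d20ca06482f016e0b605f02f41760ba05c82e016a0b405982c807802e016805802a014009801c00c0e707183881d00e607283901c20e006f83781900c705802b41580b105782b81560aa05482a007603a01c80b002400506e03641b00dd06d83681ae0d606a835018c0c505302881420a705282901460a004f827813a07902c81600ae011002034c1a40d1062030c13809b04d01e00ee056008000c004001000034019e0ce0610304130094049826412e09604a824812209004781d80ea074039815407002b06683301960c005f823811a08c03901c40a803701500a4050027)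
noncomputable def RV0_4 : Nat := (nat_lit 0x8808b20a01b0880260880dd08808808807930601c18203520a01808802308801130600820400b18200e0880e808808718203610001320a01708802208801230600918200f10000308808620a01608802108808920a01908802408808420a01408801f08807008805308806508804908806408804808806308804708806e08805108806108804520a02708809988803688802bb0600da0400f98201620a00a08800f20a0023060002040021820020880a7888033a0401398201a20a00708800c0880043060022040061820060880b188803288802cb0600e98201b20a00608800b08800530600318200710000088803120a00508800a0880bd88803488802db0600f98201c20a00808800d08800630600418200810000188802f20a0030880080880eb20a0310880d00880e70880dc0880d320a02e0880cd20a01308801e08801030600720400a18200d20a00b30600520400718200a0880e620a01208801d08801630600b18201210000720a01008801a0880ca20a02b0880c208805008803c30601318202508803830601120401518201f0880c80880c60880c420a0290880c008804420401618202008803730601020401418201e08803b30601218202408804308804d0880400880c920a02a0880c108806d18202d10000c0880553060151820271000090880c70880c50880c320a0280880bf08806008805630601618202808805430601418202610000808806c08805930601718202a08806908805d0880bc20a0260880980880b00880a608809c20a01e08808e20a0250880970880a50880bb0880033060012040051820050880e920a02f0880ce0880e20880d80880d120a02c0880cb08808208807730601b18203308807130601818202e10000d08807630601a1820321000120880d70880e10880810880b620a0220880930880ac0880a108809a20a01c08808c20a0210880920880a00880ab88802ab0600ca0400e982015)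
noncomputable def CO0_4 : Nat := (nat_lit 0x3aac403a8c503a8c403a74403a6c403a64403a64303a64103a4c503a4c403a44403a44303a44203a4410397840396c40396810396800394c50394c40394840394830394810394800392c40390c50390c4038ac40388c50388c40382c40380c50380c4036ac40369c40366c40365c40356c40355c40352c40351c4034ac40349c40342c40341c4032b05032b040329c40329040329030329020329010328c50328c40328050328030328020328010327440325c40325420325410324c50324c40324440324430324420324410317840315c40315840315830315810314c50314c40314840314830314810314800311c40310c50310c4030b840309c40309840309830309810308c50308c40308840308830308810308800301c40300c50300c402bb8402bb0502bb0402b78402b74402b34402b30502b30402b0c502b0c402b04402b04302b04202b04102b00502b00302b00202b0010297840290c50290c40288840288830288810288800280c50280c4027b84027b05027b040279c40279840279830279810279040279030279020279010277840277440273440273050273040271c40271420271410271040271030271020271010255840255830255810251c40249c40241c4017b84017b05017b04017ac4017a81017a80017a04017a03017a01017a000177840177440173440173050173040172c4017244017243017241017204017203017201017200016ac4016644016643016641014ac40142c4013b84013b05013b04013784013744013344013305013304012b05012b04012744010b8401004401004301004201004100bb8400bb0500bb0400b78400b74400b34400b30500b30400b2c400b24400b24300b24100b20400b20300b20100b20000aa0400aa0300aa0100aa0000a7440097840092c4003b84003b05003b04003784003744003344003305003304002b05002b04002744001784001104001103001102001101)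
noncomputable def Y0_4_1_0 : Nat := (nat_lit 0xff00000000000010000000000079000000000000800000000000ff000000000000300000000000ff000000000000100000000000ff000000000000200000000000ff00000000000020000000000079000000000000800000000000ff000000000000300000000000ff000000000008400000000000ff000000000008c0000000000078000000000000800000000000fb000000000000200000000000ff000000000008c0000000000078000000000000800000000000fb000000000000200000000000fb0000000000000000000000ff1f0000000006f0c000000000bd180000000000008000000000ff1b0000000000002000000000ff1b000000000bd00000000000ff1f0000000000000000000000ffe00000000000000000000000ffe00000000004280)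
noncomputable def Y0_4_2_3 : Nat := (nat_lit 0x3f000000000001400000000000370000000000033000000000003f0000000000037000000000003f0000000000014000000000003f0000000000037000000000003f000000000003700000000000370000000000033000000000003f00000000000370000017df76c30000002403203000001fffffc30000000401200000001fffffc30000000401200000001ffffffc0000000401210000001ffffffc0000008609b18000001647723000000024032300000017df76f40000000501694000001fdff6f40000000000000)
noncomputable def Y0_4_4_5 : Nat := (nat_lit 0x1ff0000000000000000000000016d000000000006100000000001ff000000000000000000000001ff000000000003000000000001ff00000000000f30000000000161000000000006100000000001ef000000000008200000000001ff00000000000e300000000001610000000000061000000000016d000000000012800000000001ef000000000008200000000001ff000000000000000000000001ff000000000000000000000001ff0000000000000000000000016d000000000006100000000001ff000000000000000000000001ff0000000000030000000000016d000000000012800000000001ef000000000000000000000001ff00000000000e300000000001610000000000061000000000016d000000000012800000000001ef00000000000820000007fffe3f0000007ff5c330000005eb002100000000200210000007ff762f00000000454020000007fffe3f00000037918300000007ffffc000000037918000000007ffffc00000003791800)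
noncomputable def Y0_4_6_6 : Nat := (nat_lit 0x40110040000000000000000000401100400000000000000000000000000000000000000000000000000000000000000000000000000000000000000000000000000000000000000000000000000000000000000000000000000000e813a040000006011804000000f813e0400000008002000000004011004000000401100400000040110040000000000000000000401100400000040110040000004011004000000000000000000040110040000000000000000000000000000000000000000000000000000000000000000000000000000000000000000000000000e813a040000006011804000000f813e0400000008002000000004011004000000000000000000040110040000000000000000000401100400000040110040000004011004000000000000010010000010040000000000000000000000000000000000000000000000000000000000000000000000000000000000000000000000000000000000000000000003903400003a0418010000018047f03c00003e04030080000020010010000010040000000000000100100000100400000000000001001000001004000000000000010010000010041001000001004000000000000000000000000003903400003a0418010000018047f03c00003e0403008000002001001004010000000000000000000000000000000000000000000000000000000000000000000000000000000000000000000000000000000000000000000000000390340e81000018010060100007f03c0f81000003008008000001001004010000000000000000010010040100000000000000000100100401000000000000000001001004010000100100401000000000000000000000000000000390340e81000018010060100007f03c0f8100000300800800000)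
noncomputable def Y0_4_7_7 : Nat := (nat_lit 0xaa00000000000000000000000000000000000000000000000000aa0000000000000000000000000000000000000000000000000a0a0000000000000000000000000000000000000000000000000a0a0000000000000000000000000000000000000000000000000aa00000000000000000000000000000000000000000000000000aa00000000000000)
noncomputable def Y0_4_8_8 : Nat := (nat_lit 0x47edb0000000000200000000000000000000000000000000000000000000000000000000000000060db00000000000000000000047edb000000000020000000000060db00000000020490000000002049000000000000000000000060db000000000000000000000000000000000000000000000000000000000000000000000000000000000000000000000000000000000000000000000000000000000000000000000000000000000000000000000000000000c180001b000000000000000000e1f8001b000000010000000000c180001b000000000000000000c180001b000004080000900000000000000000000000000000000000000000000000000000000000000000000000000000000000000000000000000000000000000000000000000000000000000000000000000000000000000000e1f8001b0000000100000000000000000000000000000000000000000000000000000000000000e1fc7ec00000000100200000000000000000000000000000000000000000000000000000000000e1fc7ec000000001002000000000000000000000000000000000000000000000000000000)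
noncomputable def C0_4 : Cd := (Cd.mk (nat_lit 236) (nat_lit 4) (nat_lit 4369) SI0_4 SW0_4 RV0_4 CO0_4 (Sl.cons (Sd.mk (nat_lit 0) (nat_lit 0) (nat_lit 0) (nat_lit 16) (Sb.cons (nat_lit 4) (nat_lit 0) (nat_lit 5) (Sb.cons (nat_lit 8) (nat_lit 5) (nat_lit 3) (Sb.cons (nat_lit 12) (nat_lit 8) (nat_lit 8) Sb.nil))) (Bl.c Y0_4_1_0 (nat_lit 46) (nat_lit 1) Bl.nil)) (Sl.cons (Sd.mk (nat_lit 2) (nat_lit 0) (nat_lit 16) (nat_lit 23) (Sb.cons (nat_lit 4) (nat_lit 0) (nat_lit 2) (Sb.cons (nat_lit 8) (nat_lit 2) (nat_lit 5) (Sb.cons (nat_lit 12) (nat_lit 7) (nat_lit 16) Sb.nil))) (Bl.r Y0_4_1_0 (nat_lit 0) Bl.nil)) (Sl.cons (Sd.mk (nat_lit 4) (nat_lit 4) (nat_lit 39) (nat_lit 16) (Sb.cons (nat_lit 0) (nat_lit 0) (nat_lit 5) (Sb.cons (nat_lit 8) (nat_lit 5) (nat_lit 3) (Sb.cons (nat_lit 12) (nat_lit 8) (nat_lit 8) Sb.nil))) (Bl.r Y0_4_2_3 (nat_lit 3) Bl.nil)) (Sl.cons (Sd.mk (nat_lit 5) (nat_lit 4) (nat_lit 55) (nat_lit 29) (Sb.cons (nat_lit 0) (nat_lit 0) (nat_lit 2) (Sb.cons (nat_lit 8) (nat_lit 2) (nat_lit 4)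 (Sb.cons (nat_lit 12) (nat_lit 6) (nat_lit 23) Sb.nil))) (Bl.c Y0_4_2_3 (nat_lit 32) (nat_lit 2) Bl.nil)) (Sl.cons (Sd.mk (nat_lit 9) (nat_lit 8) (nat_lit 84) (nat_lit 29) (Sb.cons (nat_lit 0) (nat_lit 0) (nat_lit 2) (Sb.cons (nat_lit 4) (nat_lit 2) (nat_lit 4) (Sb.cons (nat_lit 12) (nat_lit 6) (nat_lit 23) Sb.nil))) (Bl.r Y0_4_4_5 (nat_lit 5) Bl.nil)) (Sl.cons (Sd.mk (nat_lit 10) (nat_lit 8) (nat_lit 113) (nat_lit 27) (Sb.cons (nat_lit 0) (nat_lit 0) (nat_lit 6) (Sb.cons (nat_lit 4) (nat_lit 6) (nat_lit 3) (Sb.cons (nat_lit 12) (nat_lit 9) (nat_lit 18) Sb.nil))) (Bl.c Y0_4_4_5 (nat_lit 58) (nat_lit 4) Bl.nil)) (Sl.cons (Sd.mk (nat_lit 12) (nat_lit 12) (nat_lit 140) (nat_lit 51) (Sb.cons (nat_lit 0) (nat_lit 0) (nat_lit 14) (Sb.cons (nat_lit 4) (nat_lit 14) (nat_lit 14) (Sb.cons (nat_lit 8) (nat_lit 28) (nat_lit 23) Sb.nil))) (Bl.r Y0_4_6_6 (nat_lit 6) (Bl.c Y0_4_6_6 (nat_lit 102) (nat_lit 6) Bl.nil))) (Sl.cons (Sd.mk (nat_lit 13) (nat_lit 12) (nat_lit 191) (nat_lit 12) (Sb.cons (nat_lit 0) (nat_lit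 0) (nat_lit 4) (Sb.cons (nat_lit 4) (nat_lit 4) (nat_lit 4) (Sb.cons (nat_lit 8) (nat_lit 8) (nat_lit 4) Sb.nil))) (Bl.r Y0_4_7_7 (nat_lit 7) (Bl.c Y0_4_7_7 (nat_lit 24) (nat_lit 7) Bl.nil))) (Sl.cons (Sd.mk (nat_lit 14) (nat_lit 12) (nat_lit 203) (nat_lit 33) (Sb.cons (nat_lit 0) (nat_lit 0) (nat_lit 6) (Sb.cons (nat_lit 4) (nat_lit 6) (nat_lit 13) (Sb.cons (nat_lit 8) (nat_lit 19) (nat_lit 14) Sb.nil))) (Bl.r Y0_4_8_8 (nat_lit 8) (Bl.c Y0_4_8_8 (nat_lit 66) (nat_lit 8) Bl.nil))) Sl.nil))))))))))
noncomputable def SI0_5 : Nat := (nat_lit 0x1004010040100400c0300c030080200802008020080200802008020040100401004010040100401004010040100401004000000000000000000000000000)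
noncomputable def SW0_5 : Nat := (nat_lit 0x3601a00c802801200800c005c00e006009805802401100a805002000f007001400800301880c005e02b01500980460220138094048021010007c01a00c00100b805a02c01480a003c01d00e002c002000)
noncomputable def RV0_5 : Nat := (nat_lit 0x8808a20a01a08802508808520a01508802008806f0880520880620880460880be88803588802e98201d20a00908800e08800718200910000288803020a0040880090880ea20a0300880cf0880e30880d90880d220a02d0880cc08808308807818203408807218202f10000e18203910001708807d0880b720a0230880940880ad0880a208809b20a01d08808d0880b5a04012982019)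
noncomputable def CO0_5 : Nat := (nat_lit 0x38ac40388c50388c40382c40380c50380c4034ac40349c40342c40341c4030b840309c40309840309810308c50308c40308840308810308800301c40300c50300c400bb8400bb0500bb0400b78400b74400b34400b30500b30400b2c400b24400b24100b20400b20100b200008a81008a800082c4003b84003b05003b04003784003744003344003305003304000b84000142000141)
noncomputable def Y0_5_1_0 : Nat := (nat_lit 0x500000000000000000000000000000000000000000000000000050000000000000000000000000500000000000000000000000005000000000000000000000000050000000000000000000000000000000000000000000000000005000000000000000000000000050000000000005000000000000500000000000050000000000004000000000000000000000000050000000000005000000000000400000000000000000000000004000000000000000000000005ec000000000000000000000005ec000000000000000000000005ed00000000005ed)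
noncomputable def Y0_5_2_2 : Nat := (nat_lit 0x4040000000000000000000000000000000000000000000000000000000000000000000000000000000000000000000000000000000000000000000000000000000f04000000000060400000000004040000000000404000000000040400000000000000000000000404000000000000000000000000000000000000000000000000000000000000000000000000000f040000000000604)
noncomputable def Y0_5_3_3 : Nat := (nat_lit 0xa000000000000a00000000000000000000000000000000000000a000000000000a)
noncomputable def Y0_5_4_4 : Nat := (nat_lit 0x900000000000090000000000000000000000000000000000000000000000000000000000000000900000000000090000000000000000000000000000000000000000000000000000)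
noncomputable def C0_5 : Cd := (Cd.mk (nat_lit 50) (nat_lit 7) (nat_lit 4102) SI0_5 SW0_5 RV0_5 CO0_5 (Sl.cons (Sd.mk (nat_lit 0) (nat_lit 0) (nat_lit 0) (nat_lit 11) (Sb.cons (nat_lit 0) (nat_lit 0) (nat_lit 3) (Sb.cons (nat_lit 12) (nat_lit 3) (nat_lit 8) Sb.nil)) (Bl.c Y0_5_1_0 (nat_lit 34) (nat_lit 1) Bl.nil)) (Sl.cons (Sd.mk (nat_lit 2) (nat_lit 0) (nat_lit 11) (nat_lit 17) (Sb.cons (nat_lit 0) (nat_lit 0) (nat_lit 3) (Sb.cons (nat_lit 12) (nat_lit 3) (nat_lit 14) Sb.nil)) (Bl.r Y0_5_1_0 (nat_lit 0) Bl.nil)) (Sl.cons (Sd.mk (nat_lit 12) (nat_lit 12) (nat_lit 28) (nat_lit 12) (Sb.cons (nat_lit 0) (nat_lit 0) (nat_lit 12) Sb.nil) (Bl.r Y0_5_2_2 (nat_lit 2) (Bl.c Y0_5_2_2 (nat_lit 24) (nat_lit 2) Bl.nil))) (Sl.cons (Sd.mk (nat_lit 13) (nat_lit 12) (nat_lit 40) (nat_lit 4) (Sb.cons (nat_lit 0) (nat_lit 0) (nat_lit 4) Sb.nil) (Bl.r Y0_5_3_3 (nat_lit 3) (Bl.c Y0_5_3_3 (nat_lit 8) (nat_lit 3) Bl.nil))) (Sl.cons (Sd.mk (nat_lit 14) (nat_lit 12) (nat_lit 44) (nat_lit 6) (Sb.cons (nat_lit 0) (nat_lit 0) (nat_lit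 6) Sb.nil) (Bl.r Y0_5_4_4 (nat_lit 4) (Bl.c Y0_5_4_4 (nat_lit 12) (nat_lit 4) Bl.nil))) Sl.nil))))))
noncomputable def CL0 : Cl := (Cl.cons C0_0 (Cl.cons C0_1 (Cl.cons C0_2 (Cl.cons C0_3 (Cl.cons C0_4 (Cl.cons C0_5 Cl.nil))))))
noncomputable def ZL0_0 : Zl := (Zl.cons (nat_lit 0) (nat_lit 0) (nat_lit 0) (Zl.cons (nat_lit 19) (nat_lit 0) (nat_lit 11) (Zl.cons (nat_lit 12) (nat_lit 11) (nat_lit 8) (Zl.cons (nat_lit 12) (nat_lit 19) (nat_lit 4) (Zl.cons (nat_lit 39) (nat_lit 23) (nat_lit 16) (Zl.cons (nat_lit 0) (nat_lit 0) (nat_lit 0) Zl.nil))))))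
noncomputable def ZZ0 : ZZ := (ZZ.cons ZL0_0 ZZ.nil)
noncomputable def SI1_0 : Nat := (nat_lit 0x80200400)
noncomputable def SW1_0 : Nat := (nat_lit 0x18000002002)
noncomputable def RV1_0 : Nat := (nat_lit 0x18200318200418200c182011)
noncomputable def CO1_0 : Nat := (nat_lit 0x2a80102888102654100aa01)
noncomputable def Y1_0_1_2 : Nat := (nat_lit 0x6000000)
noncomputable def C1_0 : Cd := (Cd.mk (nat_lit 4) (nat_lit 5) (nat_lit 1025) SI1_0 SW1_0 RV1_0 CO1_0 (Sl.cons (Sd.mk (nat_lit 2) (nat_lit 0) (nat_lit 0) (nat_lit 1) (Sb.cons (nat_lit 8) (nat_lit 0) (nat_lit 1) Sb.nil) Bl.nil) (Sl.cons (Sd.mk (nat_lit 9) (nat_lit 8) (nat_lit 1) (nat_lit 1) (Sb.cons (nat_lit 8) (nat_lit 0) (nat_lit 1) Sb.nil) (Bl.r Y1_0_1_2 (nat_lit 2) Bl.nil)) (Sl.cons (Sd.mk (nat_lit 10) (nat_lit 8) (nat_lit 2) (nat_lit 2) (Sb.cons (nat_lit 0) (nat_lit 0) (nat_lit 1) (Sb.cons (nat_lit 8) (nat_lit 1) (nat_lit 1) Sb.nil)) (Bl.c Y1_0_1_2 (nat_lit 2) (nat_lit 1) Bl.nil)) Sl.nil))))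
noncomputable def SI1_1 : Nat := (nat_lit 0x501405014040100400c03008020080200802004010040000000)
noncomputable def SW1_1 : Nat := (nat_lit 0x140058014008010006802801e00c00980380120080010004024011001801c00c000)
noncomputable def RV1_1 : Nat := (nat_lit 0x20400608800d08800a10000020401108802008802408802810000108804508804c20a000204000204002182001088031100002100003a04009982006a0400c)
noncomputable def CO1_1 : Nat := (nat_lit 0x2a8020290c40288840288800265420255840251c4016644015680012b0401274401100501100201004201004100aa0400aa00008a80001102001101000142)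
noncomputable def Y1_1_1_0 : Nat := (nat_lit 0xa0000000000010000000000004000000)
noncomputable def Y1_1_2_3 : Nat := (nat_lit 0x800000000000200000000000100000000000040000000000010000000000002000000)
noncomputable def Y1_1_4_5 : Nat := (nat_lit 0xc0000000000048000000000010000000)
noncomputable def C1_1 : Cd := (Cd.mk (nat_lit 21) (nat_lit 6) (nat_lit 546) SI1_1 SW1_1 RV1_1 CO1_1 (Sl.cons (Sd.mk (nat_lit 0) (nat_lit 0) (nat_lit 0) (nat_lit 3) (Sb.cons (nat_lit 0) (nat_lit 0) (nat_lit 1) (Sb.cons (nat_lit 4) (nat_lit 1) (nat_lit 2) Sb.nil)) (Bl.c Y1_1_1_0 (nat_lit 6) (nat_lit 1) Bl.nil)) (Sl.cons (Sd.mk (nat_lit 2) (nat_lit 0) (nat_lit 3) (nat_lit 3) (Sb.cons (nat_lit 0) (nat_lit 0) (nat_lit 1) (Sb.cons (nat_lit 8) (nat_lit 1) (nat_lit 2) Sb.nil)) (Bl.r Y1_1_1_0 (nat_lit 0) Bl.nil)) (Sl.cons (Sd.mk (nat_lit 4) (nat_lit 4) (nat_lit 6) (nat_lit 6) (Sb.cons (nat_lit 0) (nat_lit 0) (nat_lit 2) (Sb.cons (nat_lit 4) (nat_lit 2) (nat_lit 2) (Sb.cons (nat_lit 8) (nat_lit 4) (nat_lit 2) Sb.nil))) (Bl.r Y1_1_2_3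 (nat_lit 3) Bl.nil)) (Sl.cons (Sd.mk (nat_lit 5) (nat_lit 4) (nat_lit 12) (nat_lit 2) (Sb.cons (nat_lit 4) (nat_lit 0) (nat_lit 1) (Sb.cons (nat_lit 8) (nat_lit 1) (nat_lit 1) Sb.nil)) (Bl.c Y1_1_2_3 (nat_lit 12) (nat_lit 2) Bl.nil)) (Sl.cons (Sd.mk (nat_lit 9) (nat_lit 8) (nat_lit 14) (nat_lit 3) (Sb.cons (nat_lit 4) (nat_lit 0) (nat_lit 2) (Sb.cons (nat_lit 8) (nat_lit 2) (nat_lit 1) Sb.nil)) (Bl.r Y1_1_4_5 (nat_lit 5) Bl.nil)) (Sl.cons (Sd.mk (nat_lit 10) (nat_lit 8) (nat_lit 17) (nat_lit 4) (Sb.cons (nat_lit 0) (nat_lit 0) (nat_lit 2) (Sb.cons (nat_lit 4) (nat_lit 2) (nat_lit 1) (Sb.cons (nat_lit 8) (nat_lit 3) (nat_lit 1) Sb.nil))) (Bl.c Y1_1_4_5 (nat_lit 6) (nat_lit 4) Bl.nil)) Sl.nil)))))))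
noncomputable def SI1_2 : Nat := (nat_lit 0xc0300c0300802008020080100401004000000000000)
noncomputable def SW1_2 : Nat := (nat_lit 0x2200d004001002000c003800c00400f005801800200e005002400a000)
noncomputable def RV1_2 : Nat := (nat_lit 0x18201008802c08802e08802b08805018200008805508800018200208805e08803918201408803708804e888014982007088051982008)
noncomputable def CO1_2 : Nat := (nat_lit 0x156810152c4014ac40142c4011784011001010b840100440100410097840092c4008a810082c4001784001104001101000b84000141)
noncomputable def Y1_2_1_0 : Nat := (nat_lit 0x4000002000002e000016000004000002000002e000012)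
noncomputable def Y1_2_2_3 : Nat := (nat_lit 0xe000007000003800000000000e000007000007800003c00000e000002)
noncomputable def C1_2 : Cd := (Cd.mk (nat_lit 18) (nat_lit 7) (nat_lit 67) SI1_2 SW1_2 RV1_2 CO1_2 (Sl.cons (Sd.mk (nat_lit 0) (nat_lit 0) (nat_lit 0) (nat_lit 5) (Sb.cons (nat_lit 0) (nat_lit 0) (nat_lit 2) (Sb.cons (nat_lit 4) (nat_lit 2) (nat_lit 3) Sb.nil)) (Bl.c Y1_2_1_0 (nat_lit 8) (nat_lit 1) Bl.nil)) (Sl.cons (Sd.mk (nat_lit 2) (nat_lit 0) (nat_lit 5) (nat_lit 4) (Sb.cons (nat_lit 0) (nat_lit 0) (nat_lit 2) (Sb.cons (nat_lit 4) (nat_lit 2) (nat_lit 2) Sb.nil)) (Bl.r Y1_2_1_0 (nat_lit 0) Bl.nil)) (Sl.cons (Sd.mk (nat_lit 4) (nat_lit 4) (nat_lit 9) (nat_lit 5) (Sb.cons (nat_lit 0) (nat_lit 0) (nat_lit 3) (Sb.cons (nat_lit 4) (nat_lit 3) (nat_lit 2) Sb.nil)) (Bl.r Y1_2_2_3 (nat_lit 3) Bl.nil)) (Sl.cons (Sd.mk (nat_lit 5) (nat_lit 4) (nat_lit 14) (nat_lit 4) (Sb.cons (nat_lit 0) (nat_lit 0) (nat_lit 2) (Sb.cons (nat_lit 4) (nat_lit 2) (nat_lit 2) Sb.nil)) (Bl.c Y1_2_2_3 (nat_lit 10) (nat_lit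 2) Bl.nil)) Sl.nil)))))
noncomputable def SI1_3 : Nat := (nat_lit 0x140400c0200400)
noncomputable def SW1_3 : Nat := (nat_lit 0x2003002000000a002)
noncomputable def RV1_3 : Nat := (nat_lit 0x8800b088021088029088001088032888015)
noncomputable def CO1_3 : Nat := (nat_lit 0x2888402558401664401004400aa04001104)
noncomputable def Y1_3_1_0 : Nat := (nat_lit 0x2000000)
noncomputable def Y1_3_2_3 : Nat := (nat_lit 0x2000000)
noncomputable def Y1_3_4_5 : Nat := (nat_lit 0x2000000)
noncomputable def C1_3 : Cd := (Cd.mk (nat_lit 6) (nat_lit 9) (nat_lit 279) SI1_3 SW1_3 RV1_3 CO1_3 (Sl.cons (Sd.mk (nat_lit 0) (nat_lit 0) (nat_lit 0) (nat_lit 1) (Sb.cons (nat_lit 4) (nat_lit 0) (nat_lit 1) Sb.nil) (Bl.c Y1_3_1_0 (nat_lit 2) (nat_lit 1) Bl.nil)) (Sl.cons (Sd.mk (nat_lit 2) (nat_lit 0) (nat_lit 1) (nat_lit 1) (Sb.cons (nat_lit 8) (nat_lit 0) (nat_lit 1) Sb.nil) (Bl.r Y1_3_1_0 (nat_lit 0) Bl.nil)) (Sl.cons (Sd.mk (nat_lit 4) (nat_lit 4) (nat_lit 2) (nat_lit 1) (Sb.cons (nat_lit 0) (nat_lit 0) (nat_lit 1) Sb.nil) (Bl.r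 Y1_3_2_3 (nat_lit 3) Bl.nil)) (Sl.cons (Sd.mk (nat_lit 5) (nat_lit 4) (nat_lit 3) (nat_lit 1) (Sb.cons (nat_lit 8) (nat_lit 0) (nat_lit 1) Sb.nil) (Bl.c Y1_3_2_3 (nat_lit 2) (nat_lit 2) Bl.nil)) (Sl.cons (Sd.mk (nat_lit 9) (nat_lit 8) (nat_lit 4) (nat_lit 1) (Sb.cons (nat_lit 4) (nat_lit 0) (nat_lit 1) Sb.nil) (Bl.r Y1_3_4_5 (nat_lit 5) Bl.nil)) (Sl.cons (Sd.mk (nat_lit 10) (nat_lit 8) (nat_lit 5) (nat_lit 1) (Sb.cons (nat_lit 0) (nat_lit 0) (nat_lit 1) Sb.nil) (Bl.c Y1_3_4_5 (nat_lit 2) (nat_lit 4) Bl.nil)) Sl.nil)))))))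
noncomputable def SI1_4 : Nat := (nat_lit 0x1c0701c0701c0701c0701c070180601806018060180601806018060180601806018060180601806018060140501405014050140501405014050140501405010040100401004010040100300c0300c0300c0300802008020080200802008020080200401004010040100401004010040000000000000000000000)
noncomputable def SW1_4 : Nat := (nat_lit 0x7e03e01780b803e01e009804801000701e80e807203c01d80e006e02c01680ac04a024013007403801b008803801a010007801800a00403081800ae05402981580aa052028808c034019006002c01400302f817809e050027008804202000c012c09a04c01b00a805202802e817009404902400d4068027004800800200002d816808e044021811808a03301900c402e05902c0108082040018005802a014)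
noncomputable def RV1_4 : Nat := (nat_lit 0x8803f08801308803620400808803d08801108803e08801208803b08800f88801f888017a0400b20a00708800820a001204001a0400d20a00520400488801898200a20a00488801d20a00308800688801e88801998200b20a00608800788801b20a00208800408806108805b08805d20a01208805908800920400720a00820400508805f20a00a08800e08800c30600118200520a00908802320400f20a01020401020400e08802230600318200d08802520a00f08802718200e08802f08802a30600418200f08805708804708804a20a00c08804220a00e08804608804d08805608800230600020400308806008805a08805c20a01108805808803418201308803330600518201208803a08805308804308804820a00b08804020a00d888016b06002a0400a)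
noncomputable def CO1_4 : Nat := (nat_lit 0x3aac403a8c403a64403a4420392c40390c4038ac40388c40382c40380c40329c40329040329020328c50328c40328050328020325420324c50324420315840315810314c50311c40310c50310c40309c40309840309810308c50308c40301c40300c50300c402bb8402bb0402b34402b30502b30402b04402b04202b00502b0020297840290c50290c40288840288830288810280c50279840279020273050271420271020255840255830255810251c4017305017244017241016ac4016644016643016641013b84013b04013344013305013304012b05012b04012744010b8401004401004301004200bb8400bb0400b34400b30500b30400b24400b24100aa0400aa0300aa010092c4003b84003b04003344003305003304002b05001104001103001102)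
noncomputable def Y1_4_1_0 : Nat := (nat_lit 0x80000000000020000010000020000010000002000001000007000003800000200000100007b00001980000080000000000008000000000050000020)
noncomputable def Y1_4_2_3 : Nat := (nat_lit 0x2800000000001a00000000000680000100000180000040000068000000000040000000000010000000000004000002000001200000100000cc000024000016000009000006a000005)
noncomputable def Y1_4_4_5 : Nat := (nat_lit 0x7a00000000002500000000000300000080000250000000000094000000007fc6800fe240000100000000001c08000e0000fa18000008)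
noncomputable def Y1_4_6_6 : Nat := (nat_lit 0x49880000c000081000000800009080000800002420000200000000000000001262000800000090800000000000000000000000000000006000620000000000000000000600062000011042004000000000000000000000000000000000000000000001804800c0000010880008000000000000000006012003009000422000000000)
noncomputable def Y1_4_7_7 : Nat := (nat_lit 0xa8000000000000000000000020000000000000000000000002000000000000000000000000200000000000000000000)
noncomputable def C1_4 : Cd := (Cd.mk (nat_lit 98) (nat_lit 4) (nat_lit 4369) SI1_4 SW1_4 RV1_4 CO1_4 (Sl.cons (Sd.mk (nat_lit 0) (nat_lit 0) (nat_lit 0) (nat_lit 9) (Sb.cons (nat_lit 4) (nat_lit 0) (nat_lit 3) (Sb.cons (nat_lit 8) (nat_lit 3) (nat_lit 1) (Sb.cons (nat_lit 12) (nat_lit 4) (nat_lit 5) Sb.nil))) (Bl.c Y1_4_1_0 (nat_lit 22) (nat_lit 1) Bl.nil)) (Sl.cons (Sd.mk (nat_lit 2) (nat_lit 0) (nat_lit 9) (nat_lit 11) (Sb.cons (nat_lit 4) (nat_lit 0) (nat_lit 1) (Sb.cons (nat_lit 8) (nat_lit 1) (nat_lit 3) (Sb.cons (nat_lit 12) (nat_lit 4) (nat_lit 7)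 Sb.nil))) (Bl.r Y1_4_1_0 (nat_lit 0) Bl.nil)) (Sl.cons (Sd.mk (nat_lit 4) (nat_lit 4) (nat_lit 20) (nat_lit 12) (Sb.cons (nat_lit 0) (nat_lit 0) (nat_lit 4) (Sb.cons (nat_lit 8) (nat_lit 4) (nat_lit 3) (Sb.cons (nat_lit 12) (nat_lit 7) (nat_lit 5) Sb.nil))) (Bl.r Y1_4_2_3 (nat_lit 3) Bl.nil)) (Sl.cons (Sd.mk (nat_lit 5) (nat_lit 4) (nat_lit 32) (nat_lit 7) (Sb.cons (nat_lit 8) (nat_lit 0) (nat_lit 4) (Sb.cons (nat_lit 12) (nat_lit 4) (nat_lit 3) Sb.nil)) (Bl.c Y1_4_2_3 (nat_lit 24) (nat_lit 2) Bl.nil)) (Sl.cons (Sd.mk (nat_lit 9) (nat_lit 8) (nat_lit 39) (nat_lit 9) (Sb.cons (nat_lit 4) (nat_lit 0) (nat_lit 4) (Sb.cons (nat_lit 12) (nat_lit 4) (nat_lit 5) Sb.nil)) (Bl.r Y1_4_4_5 (nat_lit 5) Bl.nil)) (Sl.cons (Sd.mk (nat_lit 10) (nat_lit 8) (nat_lit 48) (nat_lit 16) (Sb.cons (nat_lit 0) (nat_lit 0) (nat_lit 4) (Sb.cons (nat_lit 4) (nat_lit 4) (nat_lit 3) (Sb.cons (nat_lit 12) (nat_lit 7) (nat_lit 9) Sb.nil))) (Bl.c Y1_4_4_5 (nat_lit 18) (nat_lit 4) Bl.nil)) (Sl.cons (Sd.mk (nat_lit 12) (nat_lit 12) (nat_lit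 64) (nat_lit 24) (Sb.cons (nat_lit 0) (nat_lit 0) (nat_lit 8) (Sb.cons (nat_lit 4) (nat_lit 8) (nat_lit 6) (Sb.cons (nat_lit 8) (nat_lit 14) (nat_lit 10) Sb.nil))) (Bl.r Y1_4_6_6 (nat_lit 6) (Bl.c Y1_4_6_6 (nat_lit 48) (nat_lit 6) Bl.nil))) (Sl.cons (Sd.mk (nat_lit 14) (nat_lit 12) (nat_lit 88) (nat_lit 10) (Sb.cons (nat_lit 0) (nat_lit 0) (nat_lit 4) (Sb.cons (nat_lit 4) (nat_lit 4) (nat_lit 2) (Sb.cons (nat_lit 8) (nat_lit 6) (nat_lit 4) Sb.nil))) (Bl.r Y1_4_7_7 (nat_lit 7) (Bl.c Y1_4_7_7 (nat_lit 20) (nat_lit 7) Bl.nil))) Sl.nil)))))))))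
noncomputable def SI1_5 : Nat := (nat_lit 0x40100300c0200802008010040100000000000000000000)
noncomputable def SW1_5 : Nat := (nat_lit 0x1c00c0050020028012003001003801a001009004402000f006002c010000)
noncomputable def RV1_5 : Nat := (nat_lit 0x8803c08801008802d08802688801a08800388801c08800508803508803008803808805408804408804f08804b088049088041088052982009)
noncomputable def CO1_5 : Nat := (nat_lit 0x382c40380c40342c40341c40309840308840301c40300c400b24400b2040082c4003b84003b04003784003744003344003304000b84000141)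
noncomputable def Y1_5_1_0 : Nat := (nat_lit 0x600000200000180000080001fe00000e)
noncomputable def Y1_5_2_2 : Nat := (nat_lit 0x40000020000000000000000014000008)
noncomputable def Y1_5_3_3 : Nat := (nat_lit 0x4000000)
noncomputable def Y1_5_4_4 : Nat := (nat_lit 0x8000000000000000000)
noncomputable def C1_5 : Cd := (Cd.mk (nat_lit 19) (nat_lit 7) (nat_lit 4102) SI1_5 SW1_5 RV1_5 CO1_5 (Sl.cons (Sd.mk (nat_lit 0) (nat_lit 0) (nat_lit 0) (nat_lit 8) (Sb.cons (nat_lit 0) (nat_lit 0) (nat_lit 2) (Sb.cons (nat_lit 12) (nat_lit 2) (nat_lit 6) Sb.nil)) (Bl.c Y1_5_1_0 (nat_lit 6) (nat_lit 1) Bl.nil)) (Sl.cons (Sd.mk (nat_lit 2) (nat_lit 0) (nat_lit 8) (nat_lit 3) (Sb.cons (nat_lit 0) (nat_lit 0) (nat_lit 1) (Sb.cons (nat_lit 12) (nat_lit 1) (nat_lit 2) Sb.nil)) (Bl.r Y1_5_1_0 (nat_lit 0) Bl.nil)) (Sl.cons (Sd.mk (nat_lit 12) (nat_lit 12) (nat_lit 11) (nat_lit 4) (Sb.cons (nat_lit 0) (nat_lit 0) (nat_lit 4) Sb.nil) (Bl.r Y1_5_2_2 (nat_lit 2) (Bl.c Y1_5_2_2 (nat_lit 8) (nat_lit 2) Bl.nil))) (Sl.cons (Sd.mk (nat_lit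 13) (nat_lit 12) (nat_lit 15) (nat_lit 2) (Sb.cons (nat_lit 0) (nat_lit 0) (nat_lit 2) Sb.nil) (Bl.r Y1_5_3_3 (nat_lit 3) (Bl.c Y1_5_3_3 (nat_lit 4) (nat_lit 3) Bl.nil))) (Sl.cons (Sd.mk (nat_lit 14) (nat_lit 12) (nat_lit 17) (nat_lit 2) (Sb.cons (nat_lit 0) (nat_lit 0) (nat_lit 2) Sb.nil) (Bl.r Y1_5_4_4 (nat_lit 4) (Bl.c Y1_5_4_4 (nat_lit 4) (nat_lit 4) Bl.nil))) Sl.nil))))))
noncomputable def CL1 : Cl := (Cl.cons C1_0 (Cl.cons C1_1 (Cl.cons C1_2 (Cl.cons C1_3 (Cl.cons C1_4 (Cl.cons C1_5 Cl.nil))))))
noncomputable def AL1_0 : Nat := (nat_lit 0x1d042b)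
noncomputable def A41_0 : Nat := (nat_lit 0x110420)
noncomputable def IX1_0 : Nat := (nat_lit 0x300000000000000000000000000000000000000000000000000020000000000000000000000000000000000000000000000000000000000000000000000000000010000000000000000000000000000000000000000000000000000000000000000000000000000000000000000000000000000000000000000000000000000000000)
noncomputable def OL1_0 : Nat := (nat_lit 0xa001000140014)
noncomputable def AL1_1 : Nat := (nat_lit 0x10d55f2db7d081a)
noncomputable def A41_1 : Nat := (nat_lit 0x10d15121b1d081a)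
noncomputable def IX1_1 : Nat := (nat_lit 0x140000000000000000000000000000000000000000000000000000000000000001300000000000120000000000000000000000001100000000000000000000000000000000000000000000000000100000000000000000000000000f0000000000000000000000000e000000000000000000000000000000000000000000000000000d00000000000000000000000000000000000000c0000000000000000000000000000000000000000000000000000000000000000b000000000000a000000000000000000000000090000000000008000000000000000000000000000000000000000000000000000700000000000060000000000005000000000000000000000000040000000000000000000000000000000000000000000000000000000000000000300000000000000000000000000000000000000000000000000000000000000000000000000000000000000000020000000000001000000000000000000000000000000000000000)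
noncomputable def OL1_1 : Nat := (nat_lit 0xe00198032006000b001500280048008400e001b0032006000a001300240040005800400060004)
noncomputable def AL1_2 : Nat := (nat_lit 0x179deed)
noncomputable def A41_2 : Nat := (nat_lit 0x179deed)
noncomputable def IX1_2 : Nat := (nat_lit 0x1100000000000000000000000010000000000000f000000000000e000000000000d00000000000000000000000000000000000000c000000000000b000000000000a00000000000000000000000009000000000000800000000000070000000000006000000000000000000000000050000000000004000000000000300000000000000000000000002000000000000100000000000000000000000000)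
noncomputable def OL1_2 : Nat := (nat_lit 0x30005800a801400260040007800e0018002c0050009000e0018002800300040000)
noncomputable def AL1_3 : Nat := (nat_lit 0xdff1822)
noncomputable def A41_3 : Nat := (nat_lit 0x4841802)
noncomputable def IX1_3 : Nat := (nat_lit 0x500000000000000000000000000000000000000400000000000000000000000000000000000000000000000000000000000000003000000000000000000000000000000000000000000000000000000000000000000000000000002000000000000100000000000000000000000000000000000000000000000000000000000000000000000000000000000000000000000000000000000000000000000000000000000000000000000)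
noncomputable def OL1_3 : Nat := (nat_lit 0x34005c009000c00160004)
noncomputable def AL1_4 : Nat := (nat_lit 0xac4951b68001be9b26e3db8fffebbf6bfc5bff5385fdfffff7fff79ff8f)
noncomputable def A41_4 : Nat := (nat_lit 0xa40800b68001ae8a22c1db87a72abf410848bc0004a1e53ff53a871a78e)
noncomputable def IX1_4 : Nat := (nat_lit 0x610000000000000000000000006000000000000000000000000000000000000005f000000000000000000000000000000000000000000000000000000000000000000000000000000000000000005e00000000000000000000000000000000000000000000000000000000000000000000000000000000000000000000000000000000000000000000000000000000000000000000000000000000005d0000000000000000000000005c000000000005b0000000000000000000000005a00000000000590000000000000000000000005800000000000000000000000000000000000000000000000000000000000000000000000000000000000000000000000000000000000000000000000000000000000000000000000000000000000000000000000000000000000000000000000005700000000000560000000000000000000000005500000000000000000000000054000000000005300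000000000520000000000000000000000005100000000000000000000000000000000000000000000000000500000000000000000000000004f000000000000000000000000000000000000000000000000004e000000000000000000000000000000000000000000000000004d0000000000000000000000004c000000000004b00000000000000000000000000000000000000000000000000000000000000000000000000004a0000000000049000000000004800000000000000000000000047000000000004600000000000000000000000045000000000004400000000000430000000000000000000000000000000000000000000000000000000000000004200000000000410000000000040000000000003f0000000000000000000000003e00000000000000000000000000000000000003d000000000003c000000000003b00000000000000000000000000000000000003a00000000000000000000000039000000000000000000000000380000000000000000000000003700000000000000000000000036000000000003500000000000340000000000033000000000003200000000000310000000000000000000000003000000000000000000000000000000000000000000000000000000000000000000000000000002f0000000000000000000000000000000000000000000000000000000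000000002e0000000000000000000000000000000000000000000000000000000000000002d00000000000000000000000000000000000002c000000000000000000000000000000000000000000000000002b0000000000000000000000002a0000000000029000000000002800000000000270000000000000000000000000000000000000000000000000000000000000000000000000000000000000000000000000000000000000000000000000000000000000000000000000000000000000000000000000000000000000000000000000000000000000026000000000000000000000000000000000000025000000000000000000000000240000000000000000000000000000000000000000000000000000000000000002300000000000220000000000021000000000002000000000000000000000000000000000000001f0000000000000000000000001e00000000000000000000000000000000000001d000000000001c000000000001b000000000001a00000000000190000000000018000000000001700000000000160000000000015000000000001400000000000000000000000013000000000000000000000000120000000000000000000000000000000000000110000000000010000000000000f0000000000000000000000000e0000000000000000000000000d0000000000000000000000000000000000000000000000000000000000000000c000000000000b000000000000a00000000000000000000000000000000000000000000000000090000000000008000000000000000000000000070000000000000000000000000000000000000060000000000005000000000000400000000000030000000000000000000000000000000000000000000000000002000000000000100000000000000000000000000)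
noncomputable def OL1_4 : Nat := (nat_lit 0x1d603a407300df01a6034406800ce019a032c05e00bb017202dc05b00b5016602bc05680a9014a028c051009c0136026804c0097012a0250049808e011a02300458089010c0214042008100fe01f403d807900f001dc03b007500e801c8036006700c4017c02d805900b0015c02b00460086010401e003b007400e401b0034006200c0017802e005a00b0015802a005200a001300240042008000f801d0036005800a80140020003c006800a00120020003800300040004)
noncomputable def AL1_5 : Nat := (nat_lit 0x2df66500d0ded)
noncomputable def A41_5 : Nat := (nat_lit 0x532250050ded)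
noncomputable def IX1_5 : Nat := (nat_lit 0x1200000000000000000000000011000000000000000000000000000000000000010000000000000f00000000000000000000000000000000000000e000000000000000000000000000000000000000000000000000d00000000000000000000000000000000000000c0000000000000000000000000b000000000000000000000000000000000000000000000000000000000000000000000000000000000000000000000000000000000000000000000000000000000a000000000000000000000000090000000000000000000000000000000000000000000000000000000000000000800000000000070000000000000000000000000600000000000050000000000004000000000000300000000000000000000000002000000000000100000000000000000000000000)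
noncomputable def OL1_5 : Nat := (nat_lit 0x2e005800a401400250042007800e00120020002c0050008000e0018002800300040000)
noncomputable def TL1 : Tl := (Tl.cons (Tr.mk AL1_0 A41_0 IX1_0 OL1_0) (Tl.cons (Tr.mk AL1_1 A41_1 IX1_1 OL1_1) (Tl.cons (Tr.mk AL1_2 A41_2 IX1_2 OL1_2) (Tl.cons (Tr.mk AL1_3 A41_3 IX1_3 OL1_3) (Tl.cons (Tr.mk AL1_4 A41_4 IX1_4 OL1_4) (Tl.cons (Tr.mk AL1_5 A41_5 IX1_5 OL1_5) Tl.nil))))))
noncomputable def ZL1_0 : Zl := (Zl.cons (nat_lit 0) (nat_lit 0) (nat_lit 4) (Zl.cons (nat_lit 0) (nat_lit 0) (nat_lit 21) (Zl.cons (nat_lit 0) (nat_lit 0) (nat_lit 18) (Zl.cons (nat_lit 0) (nat_lit 0) (nat_lit 6) (Zl.cons (nat_lit 0) (nat_lit 0) (nat_lit 98) (Zl.cons (nat_lit 0) (nat_lit 0) (nat_lit 19) Zl.nil))))))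
noncomputable def ZZ1 : ZZ := (ZZ.cons ZL1_0 ZZ.nil)
noncomputable def C2_0 : Cd := (Cd.mk (nat_lit 0) (nat_lit 5) (nat_lit 1025) (nat_lit 0) (nat_lit 0) (nat_lit 0) (nat_lit 0) Sl.nil)
noncomputable def C2_1 : Cd := (Cd.mk (nat_lit 0) (nat_lit 6) (nat_lit 546) (nat_lit 0) (nat_lit 0) (nat_lit 0) (nat_lit 0) Sl.nil)
noncomputable def SI2_2 : Nat := (nat_lit 0x8020040100000)
noncomputable def SW2_2 : Nat := (nat_lit 0x60010028000008002)
noncomputable def RV2_2 : Nat := (nat_lit 0x8801c08800008801408801288800608801a)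
noncomputable def CO2_2 : Nat := (nat_lit 0x10b840100440092c40082c4001104000b84)
noncomputable def Y2_2_1_0 : Nat := (nat_lit 0x8000200)
noncomputable def C2_2 : Cd := (Cd.mk (nat_lit 6) (nat_lit 7) (nat_lit 67) SI2_2 SW2_2 RV2_2 CO2_2 (Sl.cons (Sd.mk (nat_lit 0) (nat_lit 0) (nat_lit 0) (nat_lit 2) (Sb.cons (nat_lit 0) (nat_lit 0) (nat_lit 1) (Sb.cons (nat_lit 4) (nat_lit 1) (nat_lit 1) Sb.nil)) (Bl.c Y2_2_1_0 (nat_lit 4) (nat_lit 1) Bl.nil)) (Sl.cons (Sd.mk (nat_lit 2) (nat_lit 0) (nat_lit 2) (nat_lit 2) (Sb.cons (nat_lit 0) (nat_lit 0) (nat_lit 1) (Sb.cons (nat_lit 4) (nat_lit 1) (nat_lit 1) Sb.nil)) (Bl.r Y2_2_1_0 (nat_lit 0) Bl.nil)) (Sl.cons (Sd.mk (nat_lit 4) (nat_lit 4) (nat_lit 4) (nat_lit 2) (Sb.cons (nat_lit 0) (nat_lit 0) (nat_lit 2) Sb.nil) Bl.nil) Sl.nil))))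
noncomputable def C2_3 : Cd := (Cd.mk (nat_lit 0) (nat_lit 9) (nat_lit 279) (nat_lit 0) (nat_lit 0) (nat_lit 0) (nat_lit 0) Sl.nil)
noncomputable def SI2_4 : Nat := (nat_lit 0x18060180601806018060140501405014050100400c03008020080200802004010000000000)
noncomputable def SW2_4 : Nat := (nat_lit 0x2a014009804801a00b005000c03a01c00d806800a002006002403200f00c005c01c004000800002200800b004000e006)
noncomputable def RV2_4 : Nat := (nat_lit 0x888008a0400520a00020400088800988800b20a00220a00108800420400320a00320400208800520a00408800c08800d08800e08800f08801820a00608801908801d08800120400108801108801520a00520a007888007a04004)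
noncomputable def CO2_4 : Nat := (nat_lit 0x329040329020328050328020315840311c40310c50300c502b04402b04202b00502b0020288840280c50255840251c4017244016644013344013305012744010b8401004401004200aa040092c4003305002b05001104001102)
noncomputable def Y2_4_1_0 : Nat := (nat_lit 0x50001000)
noncomputable def Y2_4_2_3 : Nat := (nat_lit 0x8040200010000201018000200)
noncomputable def Y2_4_4_5 : Nat := (nat_lit 0x1f8200400)
noncomputable def Y2_4_6_6 : Nat := (nat_lit 0x11884)
noncomputable def C2_4 : Cd := (Cd.mk (nat_lit 30) (nat_lit 4) (nat_lit 4369) SI2_4 SW2_4 RV2_4 CO2_4 (Sl.cons (Sd.mk (nat_lit 0) (nat_lit 0) (nat_lit 0) (nat_lit 4) (Sb.cons (nat_lit 4) (nat_lit 0) (nat_lit 2) (Sb.cons (nat_lit 8) (nat_lit 2) (nat_lit 1) (Sb.cons (nat_lit 12) (nat_lit 3) (nat_lit 1) Sb.nil))) (Bl.c Y2_4_1_0 (nat_lit 4) (nat_lit 1) Bl.nil)) (Sl.cons (Sd.mk (nat_lit 2) (nat_lit 0) (nat_lit 4) (nat_lit 2) (Sb.cons (nat_lit 4) (nat_lit 0) (nat_lit 1) (Sb.cons (nat_lit 8) (nat_lit 1) (nat_lit 1) Sb.nil)) (Bl.r Y2_4_1_0 (nat_lit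 0) Bl.nil)) (Sl.cons (Sd.mk (nat_lit 4) (nat_lit 4) (nat_lit 6) (nat_lit 6) (Sb.cons (nat_lit 0) (nat_lit 0) (nat_lit 3) (Sb.cons (nat_lit 8) (nat_lit 3) (nat_lit 1) (Sb.cons (nat_lit 12) (nat_lit 4) (nat_lit 2) Sb.nil))) (Bl.r Y2_4_2_3 (nat_lit 3) Bl.nil)) (Sl.cons (Sd.mk (nat_lit 5) (nat_lit 4) (nat_lit 12) (nat_lit 2) (Sb.cons (nat_lit 8) (nat_lit 0) (nat_lit 1) (Sb.cons (nat_lit 12) (nat_lit 1) (nat_lit 1) Sb.nil)) (Bl.c Y2_4_2_3 (nat_lit 12) (nat_lit 2) Bl.nil)) (Sl.cons (Sd.mk (nat_lit 9) (nat_lit 8) (nat_lit 14) (nat_lit 2) (Sb.cons (nat_lit 4) (nat_lit 0) (nat_lit 2) Sb.nil) (Bl.r Y2_4_4_5 (nat_lit 5) Bl.nil)) (Sl.cons (Sd.mk (nat_lit 10) (nat_lit 8) (nat_lit 16) (nat_lit 6) (Sb.cons (nat_lit 0) (nat_lit 0) (nat_lit 2) (Sb.cons (nat_lit 12) (nat_lit 2) (nat_lit 4) Sb.nil)) (Bl.c Y2_4_4_5 (nat_lit 4) (nat_lit 4) Bl.nil)) (Sl.cons (Sd.mk (nat_lit 12) (nat_lit 12) (nat_lit 22) (nat_lit 8) (Sb.cons (nat_lit 0) (nat_lit 0) (nat_lit 1) (Sb.cons (nat_lit 4) (nat_lit 1) (nat_lit 3) (Sb.cons (nat_lit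 8) (nat_lit 4) (nat_lit 4) Sb.nil))) (Bl.r Y2_4_6_6 (nat_lit 6) (Bl.c Y2_4_6_6 (nat_lit 16) (nat_lit 6) Bl.nil))) Sl.nil))))))))
noncomputable def SI2_5 : Nat := (nat_lit 0x802008010040000000)
noncomputable def SW2_5 : Nat := (nat_lit 0x20008002007000001800a003)
noncomputable def RV2_5 : Nat := (nat_lit 0x8800288800a08800308801008801308801708801608801b)
noncomputable def CO2_5 : Nat := (nat_lit 0x308840301c40300c400b2040082c4003344003304000b84)
noncomputable def Y2_5_1_0 : Nat := (nat_lit 0x8000e02)
noncomputable def Y2_5_2_2 : Nat := (nat_lit 0x400000000000)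
noncomputable def C2_5 : Cd := (Cd.mk (nat_lit 8) (nat_lit 7) (nat_lit 4102) SI2_5 SW2_5 RV2_5 CO2_5 (Sl.cons (Sd.mk (nat_lit 0) (nat_lit 0) (nat_lit 0) (nat_lit 3) (Sb.cons (nat_lit 0) (nat_lit 0) (nat_lit 1) (Sb.cons (nat_lit 12) (nat_lit 1) (nat_lit 2) Sb.nil)) (Bl.c Y2_5_1_0 (nat_lit 4) (nat_lit 1) Bl.nil)) (Sl.cons (Sd.mk (nat_lit 2) (nat_lit 0) (nat_lit 3) (nat_lit 2) (Sb.cons (nat_lit 0) (nat_lit 0) (nat_lit 1) (Sb.cons (nat_lit 12) (nat_lit 1) (nat_lit 1) Sb.nil)) (Bl.r Y2_5_1_0 (nat_lit 0) Bl.nil)) (Sl.cons (Sd.mk (nat_lit 12) (nat_lit 12) (nat_lit 5) (nat_lit 3) (Sb.cons (nat_lit 0) (nat_lit 0) (nat_lit 3) Sb.nil) (Bl.r Y2_5_2_2 (nat_lit 2) (Bl.c Y2_5_2_2 (nat_lit 6) (nat_lit 2) Bl.nil))) Sl.nil))))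
noncomputable def CL2 : Cl := (Cl.cons C2_0 (Cl.cons C2_1 (Cl.cons C2_2 (Cl.cons C2_3 (Cl.cons C2_4 (Cl.cons C2_5 Cl.nil))))))
noncomputable def AL2_0 : Nat := (nat_lit 0)
noncomputable def A42_0 : Nat := (nat_lit 0)
noncomputable def IX2_0 : Nat := (nat_lit 0)
noncomputable def OL2_0 : Nat := (nat_lit 0)
noncomputable def AL2_1 : Nat := (nat_lit 0)
noncomputable def A42_1 : Nat := (nat_lit 0)
noncomputable def IX2_1 : Nat := (nat_lit 0)
noncomputable def OL2_1 : Nat := (nat_lit 0)
noncomputable def AL2_2 : Nat := (nat_lit 0x3effe)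
noncomputable def A42_2 : Nat := (nat_lit 0xcaa)
noncomputable def IX2_2 : Nat := (nat_lit 0x500000000000040000000000000000000000000000000000000030000000000000000000000000200000000000000000000000001000000000000000000000000000000000000000)
noncomputable def OL2_2 : Nat := (nat_lit 0x160028003800500060004)
noncomputable def AL2_3 : Nat := (nat_lit 0)
noncomputable def A42_3 : Nat := (nat_lit 0)
noncomputable def IX2_3 : Nat := (nat_lit 0)
noncomputable def OL2_3 : Nat := (nat_lit 0)
noncomputable def AL2_4 : Nat := (nat_lit 0xfea6fe3f8925a531f3f26f)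
noncomputable def A42_4 : Nat := (nat_lit 0x662602078904a431d0122d)
noncomputable def IX2_4 : Nat := (nat_lit 0x1d000000000001c00000000000000000000000000000000000001b000000000001a00000000000000000000000000000000000000000000000000190000000000000000000000000000000000000180000000000017000000000000000000000000000000000000000000000000000000000000000000000000000000000000000000000000000000160000000000000000000000000000000000000000000000000000000000000000000000000000000000000000015000000000001400000000000130000000000012000000000000000000000000000000000000000000000000001100000000000000000000000000000000000001000000000000000000000000000000000000000000000000000000000000000000000000000000f00000000000000000000000000000000000000e0000000000000000000000000d00000000000000000000000000000000000000c0000000000000000000000000000000000000000000000000000000000000000b000000000000a0000000000000000000000000000000000000000000000000009000000000000800000000000070000000000000000000000000600000000000000000000000000000000000000000000000000000000000000000000000000000000000000000000000000000005000000000000000000000000000000000000004000000000000000000000000000000000000000000000000000300000000000000000000000002000000000000100000000000000000000000000)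
noncomputable def OL2_4 : Nat := (nat_lit 0xac01540290051009a01280248041007400e401c0037006600c00150027004a008800e801c0030005c00b001400180024002800300040000)
noncomputable def AL2_5 : Nat := (nat_lit 0x7f0e)
noncomputable def A42_5 : Nat := (nat_lit 0x3b0e)
noncomputable def IX2_5 : Nat := (nat_lit 0x70000000000006000000000000500000000000000000000000004000000000000300000000000000000000000000000000000000000000000000000000000000002000000000000100000000000000000000000000)
noncomputable def OL2_5 : Nat := (nat_lit 0x6800c00160024004000300040004)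
noncomputable def TL2 : Tl := (Tl.cons (Tr.mk AL2_0 A42_0 IX2_0 OL2_0) (Tl.cons (Tr.mk AL2_1 A42_1 IX2_1 OL2_1) (Tl.cons (Tr.mk AL2_2 A42_2 IX2_2 OL2_2) (Tl.cons (Tr.mk AL2_3 A42_3 IX2_3 OL2_3) (Tl.cons (Tr.mk AL2_4 A42_4 IX2_4 OL2_4) (Tl.cons (Tr.mk AL2_5 A42_5 IX2_5 OL2_5) Tl.nil))))))
noncomputable def ZL2_0 : Zl := (Zl.cons (nat_lit 0) (nat_lit 0) (nat_lit 0) (Zl.cons (nat_lit 0) (nat_lit 0) (nat_lit 0) (Zl.cons (nat_lit 4) (nat_lit 0) (nat_lit 2) (Zl.cons (nat_lit 0) (nat_lit 0) (nat_lit 0) (Zl.cons (nat_lit 6) (nat_lit 2) (nat_lit 6) (Zl.cons (nat_lit 0) (nat_lit 0) (nat_lit 0) Zl.nil))))))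
noncomputable def ZZ2 : ZZ := (ZZ.cons ZL2_0 ZZ.nil)
noncomputable def C3_0 : Cd := (Cd.mk (nat_lit 0) (nat_lit 5) (nat_lit 1025) (nat_lit 0) (nat_lit 0) (nat_lit 0) (nat_lit 0) Sl.nil)
noncomputable def C3_1 : Cd := (Cd.mk (nat_lit 0) (nat_lit 6) (nat_lit 546) (nat_lit 0) (nat_lit 0) (nat_lit 0) (nat_lit 0) Sl.nil)
noncomputable def C3_2 : Cd := (Cd.mk (nat_lit 0) (nat_lit 7) (nat_lit 67) (nat_lit 0) (nat_lit 0) (nat_lit 0) (nat_lit 0) Sl.nil)
noncomputable def C3_3 : Cd := (Cd.mk (nat_lit 0) (nat_lit 9) (nat_lit 279) (nat_lit 0) (nat_lit 0) (nat_lit 0) (nat_lit 0) Sl.nil)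
noncomputable def SI3_4 : Nat := (nat_lit 0xc0200400)
noncomputable def SW3_4 : Nat := (nat_lit 0x4004003)
noncomputable def RV3_4 : Nat := (nat_lit 0x888000088001088002088003)
noncomputable def CO3_4 : Nat := (nat_lit 0x311c4025584016644013344)
noncomputable def Y3_4_0_1 : Nat := (nat_lit 0x4)
noncomputable def C3_4 : Cd := (Cd.mk (nat_lit 4) (nat_lit 4) (nat_lit 4369) SI3_4 SW3_4 RV3_4 CO3_4 (Sl.cons (Sd.mk (nat_lit 4) (nat_lit 4) (nat_lit 0) (nat_lit 1) (Sb.cons (nat_lit 12) (nat_lit 0) (nat_lit 1) Sb.nil) (Bl.r Y3_4_0_1 (nat_lit 1) Bl.nil)) (Sl.cons (Sd.mk (nat_lit 5) (nat_lit 4) (nat_lit 1) (nat_lit 1) (Sb.cons (nat_lit 8) (nat_lit 0) (nat_lit 1) Sb.nil) (Bl.c Y3_4_0_1 (nat_lit 2) (nat_lit 0) Bl.nil)) (Sl.cons (Sd.mk (nat_lit 9) (nat_lit 8) (nat_lit 2) (nat_lit 1) (Sb.cons (nat_lit 4) (nat_lit 0) (nat_lit 1) Sb.nil) Bl.nil) (Sl.cons (Sd.mk (nat_lit 12) (nat_lit 12) (nat_lit 3) (nat_lit 1) (Sb.cons (nat_lit 4) (nat_lit 0) (nat_lit 1) Sb.nil) Bl.nil) Sl.nil)))))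
noncomputable def C3_5 : Cd := (Cd.mk (nat_lit 0) (nat_lit 7) (nat_lit 4102) (nat_lit 0) (nat_lit 0) (nat_lit 0) (nat_lit 0) Sl.nil)
noncomputable def CL3 : Cl := (Cl.cons C3_0 (Cl.cons C3_1 (Cl.cons C3_2 (Cl.cons C3_3 (Cl.cons C3_4 (Cl.cons C3_5 Cl.nil))))))
noncomputable def AL3_0 : Nat := (nat_lit 0)
noncomputable def A43_0 : Nat := (nat_lit 0)
noncomputable def IX3_0 : Nat := (nat_lit 0)
noncomputable def OL3_0 : Nat := (nat_lit 0)
noncomputable def AL3_1 : Nat := (nat_lit 0)
noncomputable def A43_1 : Nat := (nat_lit 0)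
noncomputable def IX3_1 : Nat := (nat_lit 0)
noncomputable def OL3_1 : Nat := (nat_lit 0)
noncomputable def AL3_2 : Nat := (nat_lit 0)
noncomputable def A43_2 : Nat := (nat_lit 0)
noncomputable def IX3_2 : Nat := (nat_lit 0)
noncomputable def OL3_2 : Nat := (nat_lit 0)
noncomputable def AL3_3 : Nat := (nat_lit 0)
noncomputable def A43_3 : Nat := (nat_lit 0)
noncomputable def IX3_3 : Nat := (nat_lit 0)
noncomputable def OL3_3 : Nat := (nat_lit 0)
noncomputable def AL3_4 : Nat := (nat_lit 0x21489900)
noncomputable def A43_4 : Nat := (nat_lit 0x1009800)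
noncomputable def IX3_4 : Nat := (nat_lit 0x3000000000000000000000000000000000000000000000000000000000000000000000000000000000000000000000000000000000000000000002000000000000000000000000000000000000001000000000000000000000000000000000000000000000000000000000000000000000000000000000000000000000000000000000000000000000000000000000000000000000000000000000000)
noncomputable def OL3_4 : Nat := (nat_lit 0xc000f0018002c)
noncomputable def AL3_5 : Nat := (nat_lit 0xa)
noncomputable def A43_5 : Nat := (nat_lit 0)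
noncomputable def IX3_5 : Nat := (nat_lit 0)
noncomputable def OL3_5 : Nat := (nat_lit 0)
noncomputable def TL3 : Tl := (Tl.cons (Tr.mk AL3_0 A43_0 IX3_0 OL3_0) (Tl.cons (Tr.mk AL3_1 A43_1 IX3_1 OL3_1) (Tl.cons (Tr.mk AL3_2 A43_2 IX3_2 OL3_2) (Tl.cons (Tr.mk AL3_3 A43_3 IX3_3 OL3_3) (Tl.cons (Tr.mk AL3_4 A43_4 IX3_4 OL3_4) (Tl.cons (Tr.mk AL3_5 A43_5 IX3_5 OL3_5) Tl.nil))))))
noncomputable def ZL3_0 : Zl := (Zl.cons (nat_lit 0) (nat_lit 0) (nat_lit 0) (Zl.cons (nat_lit 0) (nat_lit 0) (nat_lit 0) (Zl.cons (nat_lit 0) (nat_lit 0) (nat_lit 0) (Zl.cons (nat_lit 0) (nat_lit 0) (nat_lit 0) (Zl.cons (nat_lit 0) (nat_lit 0) (nat_lit 4) (Zl.cons (nat_lit 0) (nat_lit 0) (nat_lit 0) Zl.nil))))))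
noncomputable def ZZ3 : ZZ := (ZZ.cons ZL3_0 ZZ.nil)
def wf0_0 : wfC (nat_lit 52) (nat_lit 2) C0_0 = true := by decide +kernel
def pl0_0 : plCk (nat_lit 52) (nat_lit 2) (nat_lit 11) (nat_lit 0) (nat_lit 0) (nat_lit 7) (nat_lit 6) (nat_lit 4) (nat_lit 0) nl0 CL0 = true := by decide +kernel
def wf0_1 : wfC (nat_lit 52) (nat_lit 2) C0_1 = true := by decide +kernel
def pl0_1 : plCk (nat_lit 52) (nat_lit 2) (nat_lit 11) (nat_lit 0) (nat_lit 0) (nat_lit 7) (nat_lit 6) (nat_lit 4) (nat_lit 1) nl0 CL0 = true := by decide +kernel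
def wf0_2 : wfC (nat_lit 52) (nat_lit 2) C0_2 = true := by decide +kernel
def pl0_2 : plCk (nat_lit 52) (nat_lit 2) (nat_lit 11) (nat_lit 0) (nat_lit 0) (nat_lit 7) (nat_lit 6) (nat_lit 4) (nat_lit 2) nl0 CL0 = true := by decide +kernel
def wf0_3 : wfC (nat_lit 52) (nat_lit 2) C0_3 = true := by decide +kernel
def pl0_3 : plCk (nat_lit 52) (nat_lit 2) (nat_lit 11) (nat_lit 0) (nat_lit 0) (nat_lit 7) (nat_lit 6) (nat_lit 4) (nat_lit 3) nl0 CL0 = true := by decide +kernel
def wf0_4 : wfC (nat_lit 52) (nat_lit 2) C0_4 = true := by decide +kernel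
def pl0_4 : plCk (nat_lit 52) (nat_lit 2) (nat_lit 11) (nat_lit 0) (nat_lit 0) (nat_lit 7) (nat_lit 6) (nat_lit 4) (nat_lit 4) nl0 CL0 = true := by decide +kernel
def wf0_5 : wfC (nat_lit 52) (nat_lit 2) C0_5 = true := by decide +kernel
def pl0_5 : plCk (nat_lit 52) (nat_lit 2) (nat_lit 11) (nat_lit 0) (nat_lit 0) (nat_lit 7) (nat_lit 6) (nat_lit 4) (nat_lit 5) nl0 CL0 = true := by decide +kernel
def ti0_0 : tileCk (nat_lit 52) (nat_lit 2) (nat_lit 1) (nat_lit 1) (nat_lit 39) (nat_lit 11) (nat_lit 6) ZL0_0 CL0 = true := by decide +kernel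
def zl0_0 : zlOK (nat_lit 39) ZL0_0 = true := by decide +kernel
def tc0_0 : tiCov (nat_lit 1) (nat_lit 0) ZZ0 C0_0 = true := by decide +kernel
def tc0_1 : tiCov (nat_lit 1) (nat_lit 1) ZZ0 C0_1 = true := by decide +kernel
def tc0_2 : tiCov (nat_lit 1) (nat_lit 2) ZZ0 C0_2 = true := by decide +kernel
def tc0_3 : tiCov (nat_lit 1) (nat_lit 3) ZZ0 C0_3 = true := by decide +kernel
def tc0_4 : tiCov (nat_lit 1) (nat_lit 4) ZZ0 C0_4 = true := by decide +kernel
def tc0_5 : tiCov (nat_lit 1) (nat_lit 5) ZZ0 C0_5 = true := by decide +kernel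
def wf1_0 : wfC (nat_lit 25) (nat_lit 2) C1_0 = true := by decide +kernel
def rf1_0 : rfCk (nat_lit 52) (nat_lit 2) (nat_lit 25) (nat_lit 2) (nat_lit 9) (nat_lit 0) (nat_lit 0) TL1 CL0 CL1 = true := by decide +kernel
def st1_0_0 : starCk (nat_lit 25) (nat_lit 2) (nat_lit 1) (nat_lit 1) (nat_lit 1) (nat_lit 0) (nat_lit 1) C1_0 = true := by decide +kernel
def sc1_0 : stCov (nat_lit 0) (nat_lit 0) (Rl.cons (nat_lit 0) (nat_lit 1) Rl.nil) C1_0 = true := by decide +kernel
def wf1_1 : wfC (nat_lit 25) (nat_lit 2) C1_1 = true := by decide +kernel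
def rf1_1 : rfCk (nat_lit 52) (nat_lit 2) (nat_lit 25) (nat_lit 2) (nat_lit 9) (nat_lit 0) (nat_lit 1) TL1 CL0 CL1 = true := by decide +kernel
def st1_1_0 : starCk (nat_lit 25) (nat_lit 2) (nat_lit 1) (nat_lit 1) (nat_lit 3) (nat_lit 3) (nat_lit 1) C1_1 = true := by decide +kernel
def sc1_1 : stCov (nat_lit 0) (nat_lit 3) (Rl.cons (nat_lit 3) (nat_lit 3) Rl.nil) C1_1 = true := by decide +kernel
def wf1_2 : wfC (nat_lit 25) (nat_lit 2) C1_2 = true := by decide +kernel
def rf1_2 : rfCk (nat_lit 52) (nat_lit 2) (nat_lit 25) (nat_lit 2) (nat_lit 9) (nat_lit 0) (nat_lit 2) TL1 CL0 CL1 = true := by decide +kernel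
def st1_2_0 : starCk (nat_lit 25) (nat_lit 2) (nat_lit 1) (nat_lit 1) (nat_lit 4) (nat_lit 5) (nat_lit 1) C1_2 = true := by decide +kernel
def sc1_2 : stCov (nat_lit 0) (nat_lit 5) (Rl.cons (nat_lit 5) (nat_lit 4) Rl.nil) C1_2 = true := by decide +kernel
def wf1_3 : wfC (nat_lit 25) (nat_lit 2) C1_3 = true := by decide +kernel
def rf1_3 : rfCk (nat_lit 52) (nat_lit 2) (nat_lit 25) (nat_lit 2) (nat_lit 9) (nat_lit 0) (nat_lit 3) TL1 CL0 CL1 = true := by decide +kernel
def st1_3_0 : starCk (nat_lit 25) (nat_lit 2) (nat_lit 1) (nat_lit 1) (nat_lit 1) (nat_lit 2) (nat_lit 16) C1_3 = true := by decide +kernel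
def sc1_3 : stCov (nat_lit 1) (nat_lit 2) (Rl.cons (nat_lit 2) (nat_lit 1) Rl.nil) C1_3 = true := by decide +kernel
def wf1_4 : wfC (nat_lit 25) (nat_lit 2) C1_4 = true := by decide +kernel
def rf1_4 : rfCk (nat_lit 52) (nat_lit 2) (nat_lit 25) (nat_lit 2) (nat_lit 9) (nat_lit 0) (nat_lit 4) TL1 CL0 CL1 = true := by decide +kernel
def st1_4_0 : starCk (nat_lit 25) (nat_lit 2) (nat_lit 1) (nat_lit 1) (nat_lit 9) (nat_lit 39) (nat_lit 256) C1_4 = true := by decide +kernel
def sc1_4 : stCov (nat_lit 2) (nat_lit 39) (Rl.cons (nat_lit 39) (nat_lit 9) Rl.nil) C1_4 = true := by decide +kernel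
def wf1_5 : wfC (nat_lit 25) (nat_lit 2) C1_5 = true := by decide +kernel
def rf1_5 : rfCk (nat_lit 52) (nat_lit 2) (nat_lit 25) (nat_lit 2) (nat_lit 9) (nat_lit 0) (nat_lit 5) TL1 CL0 CL1 = true := by decide +kernel
def st1_5_0 : starCk (nat_lit 25) (nat_lit 2) (nat_lit 1) (nat_lit 1) (nat_lit 8) (nat_lit 11) (nat_lit 4096) C1_5 = true := by decide +kernel
def sc1_5 : stCov (nat_lit 3) (nat_lit 11) (Rl.cons (nat_lit 11) (nat_lit 8) Rl.nil) C1_5 = true := by decide +kernel
def wf2_2 : wfC (nat_lit 9) (nat_lit 2) C2_2 = true := by decide +kernel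
def rf2_2 : rfCk (nat_lit 25) (nat_lit 2) (nat_lit 9) (nat_lit 2) (nat_lit 9) (nat_lit 0) (nat_lit 2) TL2 CL1 CL2 = true := by decide +kernel
def wf2_4 : wfC (nat_lit 9) (nat_lit 2) C2_4 = true := by decide +kernel
def rf2_4 : rfCk (nat_lit 25) (nat_lit 2) (nat_lit 9) (nat_lit 2) (nat_lit 9) (nat_lit 0) (nat_lit 4) TL2 CL1 CL2 = true := by decide +kernel
def wf2_5 : wfC (nat_lit 9) (nat_lit 2) C2_5 = true := by decide +kernel
def rf2_5 : rfCk (nat_lit 25) (nat_lit 2) (nat_lit 9) (nat_lit 2) (nat_lit 9) (nat_lit 0) (nat_lit 5) TL2 CL1 CL2 = true := by decide +kernel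
def ti2_0 : tileCk (nat_lit 9) (nat_lit 2) (nat_lit 1) (nat_lit 1) (nat_lit 8) (nat_lit 11) (nat_lit 6) ZL2_0 CL2 = true := by decide +kernel
def zl2_0 : zlOK (nat_lit 8) ZL2_0 = true := by decide +kernel
def tc2_2 : tiCov (nat_lit 1) (nat_lit 2) ZZ2 C2_2 = true := by decide +kernel
def tc2_4 : tiCov (nat_lit 1) (nat_lit 4) ZZ2 C2_4 = true := by decide +kernel
def tc2_5 : tiCov (nat_lit 1) (nat_lit 5) ZZ2 C2_5 = true := by decide +kernel
def wf3_4 : wfC (nat_lit 2) (nat_lit 2) C3_4 = true := by decide +kernel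
def rf3_4 : rfCk (nat_lit 9) (nat_lit 2) (nat_lit 2) (nat_lit 2) (nat_lit 9) (nat_lit 0) (nat_lit 4) TL3 CL2 CL3 = true := by decide +kernel
def sc3_4 : stCov (nat_lit 0) (nat_lit 0) Rl.nil C3_4 = true := by decide +kernel
def de3_4 : deadCk (nat_lit 2) (nat_lit 2) C3_4 = true := by decide +kernel
def sc0_0 : stCov (nat_lit 0) (nat_lit 0) (Rl.cons (nat_lit 0) (nat_lit 24) Rl.nil) C0_0 = true := by decide +kernel
def sc0_1 : stCov (nat_lit 0) (nat_lit 0) (Rl.cons (nat_lit 0) (nat_lit 58) Rl.nil) C0_1 = true := by decide +kernel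
def sc0_2 : stCov (nat_lit 0) (nat_lit 0) (Rl.cons (nat_lit 0) (nat_lit 25) Rl.nil) C0_2 = true := by decide +kernel
def sc0_3 : stCov (nat_lit 0) (nat_lit 0) (Rl.cons (nat_lit 0) (nat_lit 29) Rl.nil) C0_3 = true := by decide +kernel
def sc0_4 : stCov (nat_lit 0) (nat_lit 0) (Rl.cons (nat_lit 0) (nat_lit 236) Rl.nil) C0_4 = true := by decide +kernel
def sc0_5 : stCov (nat_lit 0) (nat_lit 0) (Rl.cons (nat_lit 0) (nat_lit 50) Rl.nil) C0_5 = true := by decide +kernel
def zl1_0 : zlOK (nat_lit 98) ZL1_0 = true := by decide +kernel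
def tc1_0 : tiCov (nat_lit 1) (nat_lit 0) ZZ1 C1_0 = true := by decide +kernel
def tc1_1 : tiCov (nat_lit 1) (nat_lit 1) ZZ1 C1_1 = true := by decide +kernel
def tc1_2 : tiCov (nat_lit 1) (nat_lit 2) ZZ1 C1_2 = true := by decide +kernel
def tc1_3 : tiCov (nat_lit 1) (nat_lit 3) ZZ1 C1_3 = true := by decide +kernel
def tc1_4 : tiCov (nat_lit 1) (nat_lit 4) ZZ1 C1_4 = true := by decide +kernel
def tc1_5 : tiCov (nat_lit 1) (nat_lit 5) ZZ1 C1_5 = true := by decide +kernel
def wf2_0 : wfC (nat_lit 9) (nat_lit 2) C2_0 = true := by decide +kernel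
def wf2_1 : wfC (nat_lit 9) (nat_lit 2) C2_1 = true := by decide +kernel
def wf2_3 : wfC (nat_lit 9) (nat_lit 2) C2_3 = true := by decide +kernel
def rf2_0 : rfCk (nat_lit 25) (nat_lit 2) (nat_lit 9) (nat_lit 2) (nat_lit 9) (nat_lit 0) (nat_lit 0) TL2 CL1 CL2 = true := by decide +kernel
def rf2_1 : rfCk (nat_lit 25) (nat_lit 2) (nat_lit 9) (nat_lit 2) (nat_lit 9) (nat_lit 0) (nat_lit 1) TL2 CL1 CL2 = true := by decide +kernel
def rf2_3 : rfCk (nat_lit 25) (nat_lit 2) (nat_lit 9) (nat_lit 2) (nat_lit 9) (nat_lit 0) (nat_lit 3) TL2 CL1 CL2 = true := by decide +kernel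
def sc2_0 : stCov (nat_lit 0) (nat_lit 0) Rl.nil C2_0 = true := by decide +kernel
def sc2_1 : stCov (nat_lit 0) (nat_lit 0) Rl.nil C2_1 = true := by decide +kernel
def sc2_2 : stCov (nat_lit 0) (nat_lit 0) (Rl.cons (nat_lit 0) (nat_lit 6) Rl.nil) C2_2 = true := by decide +kernel
def sc2_3 : stCov (nat_lit 0) (nat_lit 0) Rl.nil C2_3 = true := by decide +kernel
def sc2_4 : stCov (nat_lit 0) (nat_lit 0) (Rl.cons (nat_lit 0) (nat_lit 30) Rl.nil) C2_4 = true := by decide +kernel
def sc2_5 : stCov (nat_lit 0) (nat_lit 0) (Rl.cons (nat_lit 0) (nat_lit 8) Rl.nil) C2_5 = true := by decide +kernel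
def tc2_0 : tiCov (nat_lit 1) (nat_lit 0) ZZ2 C2_0 = true := by decide +kernel
def tc2_1 : tiCov (nat_lit 1) (nat_lit 1) ZZ2 C2_1 = true := by decide +kernel
def tc2_3 : tiCov (nat_lit 1) (nat_lit 3) ZZ2 C2_3 = true := by decide +kernel
def wf3_0 : wfC (nat_lit 2) (nat_lit 2) C3_0 = true := by decide +kernel
def wf3_1 : wfC (nat_lit 2) (nat_lit 2) C3_1 = true := by decide +kernel
def wf3_2 : wfC (nat_lit 2) (nat_lit 2) C3_2 = true := by decide +kernel
def wf3_3 : wfC (nat_lit 2) (nat_lit 2) C3_3 = true := by decide +kernel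
def wf3_5 : wfC (nat_lit 2) (nat_lit 2) C3_5 = true := by decide +kernel
def rf3_0 : rfCk (nat_lit 9) (nat_lit 2) (nat_lit 2) (nat_lit 2) (nat_lit 9) (nat_lit 0) (nat_lit 0) TL3 CL2 CL3 = true := by decide +kernel
def rf3_1 : rfCk (nat_lit 9) (nat_lit 2) (nat_lit 2) (nat_lit 2) (nat_lit 9) (nat_lit 0) (nat_lit 1) TL3 CL2 CL3 = true := by decide +kernel
def rf3_2 : rfCk (nat_lit 9) (nat_lit 2) (nat_lit 2) (nat_lit 2) (nat_lit 9) (nat_lit 0) (nat_lit 2) TL3 CL2 CL3 = true := by decide +kernel
def rf3_3 : rfCk (nat_lit 9) (nat_lit 2) (nat_lit 2) (nat_lit 2) (nat_lit 9) (nat_lit 0) (nat_lit 3) TL3 CL2 CL3 = true := by decide +kernel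
def rf3_5 : rfCk (nat_lit 9) (nat_lit 2) (nat_lit 2) (nat_lit 2) (nat_lit 9) (nat_lit 0) (nat_lit 5) TL3 CL2 CL3 = true := by decide +kernel
def zl3_0 : zlOK (nat_lit 4) ZL3_0 = true := by decide +kernel
def sc3_0 : stCov (nat_lit 0) (nat_lit 0) Rl.nil C3_0 = true := by decide +kernel
def sc3_1 : stCov (nat_lit 0) (nat_lit 0) Rl.nil C3_1 = true := by decide +kernel
def sc3_2 : stCov (nat_lit 0) (nat_lit 0) Rl.nil C3_2 = true := by decide +kernel
def sc3_3 : stCov (nat_lit 0) (nat_lit 0) Rl.nil C3_3 = true := by decide +kernel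
def sc3_5 : stCov (nat_lit 0) (nat_lit 0) Rl.nil C3_5 = true := by decide +kernel
def tc3_0 : tiCov (nat_lit 1) (nat_lit 0) ZZ3 C3_0 = true := by decide +kernel
def tc3_1 : tiCov (nat_lit 1) (nat_lit 1) ZZ3 C3_1 = true := by decide +kernel
def tc3_2 : tiCov (nat_lit 1) (nat_lit 2) ZZ3 C3_2 = true := by decide +kernel
def tc3_3 : tiCov (nat_lit 1) (nat_lit 3) ZZ3 C3_3 = true := by decide +kernel
def tc3_4 : tiCov (nat_lit 1) (nat_lit 4) ZZ3 C3_4 = true := by decide +kernel
def tc3_5 : tiCov (nat_lit 1) (nat_lit 5) ZZ3 C3_5 = true := by decide +kernel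
def de3_0 : deadCk (nat_lit 2) (nat_lit 2) C3_0 = true := by decide +kernel
def de3_1 : deadCk (nat_lit 2) (nat_lit 2) C3_1 = true := by decide +kernel
def de3_2 : deadCk (nat_lit 2) (nat_lit 2) C3_2 = true := by decide +kernel
def de3_3 : deadCk (nat_lit 2) (nat_lit 2) C3_3 = true := by decide +kernel
def de3_5 : deadCk (nat_lit 2) (nat_lit 2) C3_5 = true := by decide +kernel

end Pool.Agent.NNr.R11_4_9_11
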